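import Pool.Agent.Run7.h282.PM.Iface

/-!
# Project PM (helper282), piece COL: a rectangular permanent by rows and by columns
-/

set_option autoImplicit false

open Finset

namespace Run7.h108.PM

open Run7.h282.PM

variable {F : Type} [Field F]

theorem mulv_map {κ κ' : Type} [DecidableEq κ] [DecidableEq κ'] (e : κ ↪ κ')
    (x : κ' → F) (y : Finset κ' → F) (T : Finset κ) :
    mulv x y (T.map e) = mulv (fun j => x (e j)) (fun U => y (U.map e)) T := by
  unfold mulv
  rw [Finset.sum_map]
  refine Finset.sum_congr rfl fun j _ => ?_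
  show x (e j) * y ((T.map e).erase (e j)) = x (e j) * y ((T.erase j).map e)
  rw [Finset.map_erase]

theorem prodv_map {κ κ' : Type} [DecidableEq κ] [DecidableEq κ'] (e : κ ↪ κ') :
    ∀ (m : ℕ) (C : Fin m → κ' → F) (y : Finset κ' → F) (T : Finset κ),
    prodv m C y (T.map e) = prodv m (fun i j => C i (e j)) (fun U => y (U.map e)) T := by
  intro m
  induction m with
  | zero => intro C y T; rfl
  | succ m ih =>
    intro C y T
    show prodv m (fun i => C i.succ) (mulv (C 0) y) (T.map e) =
      prodv m (fun i j => C i.succ (e j)) (mulv (fun j => C 0 (e j)) (fun U => y (U.map e))) T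
    rw [ih]
    congr 1
    funext U
    exact mulv_map e (C 0) y U

theorem one_map {κ κ' : Type} [DecidableEq κ] [DecidableEq κ'] (e : κ ↪ κ') :
    (fun U : Finset κ => one F κ' (U.map e)) = one F κ := by
  funext U
  simp [one, Finset.map_eq_empty]

theorem prodv_mulv {κ : Type} [DecidableEq κ] (hB : S_BASE) :
    ∀ (m : ℕ) (C : Fin m → κ → F) (x : κ → F) (y : Finset κ → F),
    prodv m C (mulv x y) = mulv x (prodv m C y) := by
  intro m
  induction m with
  | zero => intro C x y; rfl
  | succ m ih =>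
    intro C x y
    show prodv m (fun i => C i.succ) (mulv (C 0) (mulv x y)) =
      mulv x (prodv m (fun i => C i.succ) (mulv (C 0) y))
    rw [(hB F κ).1 (C 0) x y, ih]

theorem univ_erase_eq {n : ℕ} (a : Fin (n + 1)) :
    (univ : Finset (Fin (n + 1))).erase a = (univ : Finset (Fin n)).map (Fin.succAboveEmb a) := by
  ext j
  simp only [Finset.mem_erase, Finset.mem_univ, and_true, Finset.mem_map, true_and]
  constructor
  · intro h
    obtain ⟨z, hz⟩ := Fin.exists_succAbove_eq h
    exact ⟨z, hz⟩
  · rintro ⟨z, hz⟩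
    rw [← hz]
    exact Fin.succAbove_ne a z

theorem col_gen (hB : S_BASE) (hP : S_PER) (m : ℕ) (D : Fin (m + 2) → Fin (m + 3) → F)
    (a : Fin (m + 3)) :
    prodv (m + 2) D (one F (Fin (m + 3))) (univ.erase a) =
      mulv (fun i => D i (a.succAbove 1)) (mulv (fun i => D i (a.succAbove 0))
        (prodv m (fun l i => D i (a.succAbove l.succ.succ)) (one F (Fin (m + 2))))) univ := by
  rw [univ_erase_eq, prodv_map (Fin.succAboveEmb a), one_map]
  have h1 : prodv (m + 2) (fun (i : Fin (m + 2)) (j : Fin (m + 2)) =>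
      D i ((Fin.succAboveEmb a) j)) (one F (Fin (m + 2))) univ =
      Matrix.permanent (Matrix.of (fun (i : Fin (m + 2)) (j : Fin (m + 2)) =>
      D i ((Fin.succAboveEmb a) j))) := hP F (m + 2) _
  rw [h1, ← Matrix.permanent_transpose]
  have h2 : (Matrix.of (fun (i : Fin (m + 2)) (j : Fin (m + 2)) =>
      D i ((Fin.succAboveEmb a) j))).transpose =
      Matrix.of (fun (j : Fin (m + 2)) (i : Fin (m + 2)) => D i (a.succAbove j)) := by
    ext i j; rfl
  rw [h2, ← hP F (m + 2)]
  show prodv m (fun l i => D i (a.succAbove l.succ.succ))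
    (mulv (fun i => D i (a.succAbove (Fin.succ 0))) (mulv (fun i => D i (a.succAbove 0))
      (one F (Fin (m + 2))))) univ = _
  rw [prodv_mulv hB, prodv_mulv hB]
  rfl

theorem t_COL (hB : S_BASE) (hP : S_PER) : S_COL := by
  intro F _ m D Y
  have e0 : ∀ l : Fin m, (0 : Fin (m + 3)).succAbove l.succ.succ = l.succ.succ.succ := by
    intro l; rfl
  have e1 : ∀ l : Fin m, (1 : Fin (m + 3)).succAbove l.succ.succ = l.succ.succ.succ := by
    intro l
    rw [Fin.succAbove_of_le_castSucc]
    rw [Fin.le_def]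
    simp [Fin.val_succ]
  have e2 : ∀ l : Fin m, (2 : Fin (m + 3)).succAbove l.succ.succ = l.succ.succ.succ := by
    intro l
    rw [Fin.succAbove_of_le_castSucc]
    rw [Fin.le_def]
    have : ((2 : Fin (m + 3)) : ℕ) = 2 := by
      rw [Fin.val_two]
    rw [this]
    simp [Fin.val_succ]
  refine ⟨?_, ?_, ?_⟩
  · rw [col_gen hB hP m D 0, (hB F (Fin (m + 2))).1]
    simp only [e0]
    rfl
  · rw [col_gen hB hP m D 1, (hB F (Fin (m + 2))).1]
    simp only [e1]
    rfl
  · rw [col_gen hB hP m D 2, (hB F (Fin (m + 2))).1]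
    simp only [e2]
    rfl

end Run7.h108.PM
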