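import Pool.Agent.Run7.h282.PM.Iface

/-!
# Project PM (helper282), piece LINK: the vanishing probability of the permanent
-/

set_option autoImplicit false

open Finset

namespace Run7.h108.PM

open Run7.h282.PM

section gen
variable {F : Type} [Field F] [Fintype F] {κ : Type} [Fintype κ] [DecidableEq κ]

/-- the indicator that the coefficient at `univ` vanishes -/
noncomputable def z1 (F : Type) [Field F] (κ : Type) [Fintype κ] [DecidableEq κ] :
    (Finset κ → F) → ℝ := by
  classical exact fun y => if y univ = 0 then 1 else 0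

theorem A0_apply (f : (Finset κ → F) → ℝ) (y : Finset κ → F) :
    A0 F κ f y = (∑ x : κ → F, f (mulv x y)) / (Fintype.card F : ℝ) ^ (Fintype.card κ) := rfl

theorem q_pos : 0 < (Fintype.card F : ℝ) := by
  have : 0 < Fintype.card F := Fintype.card_pos
  exact_mod_cast this

/-- the iterates only see homogeneous elements -/
theorem iter_congr (hB : S_BASE) (f g : (Finset κ → F) → ℝ) :
    ∀ (m d : ℕ), (∀ y, Hom (m + d) y → f y = g y) →
      ∀ y, Hom d y → (A0 F κ)^[m] f y = (A0 F κ)^[m] g y := by
  intro m
  induction m with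
  | zero =>
    intro d h y hy
    exact h y (by rw [Nat.zero_add]; exact hy)
  | succ m ih =>
    intro d h y hy
    rw [Function.iterate_succ_apply', Function.iterate_succ_apply', A0_apply, A0_apply]
    congr 1
    refine Finset.sum_congr rfl fun x _ => ?_
    refine ih (d + 1) ?_ (mulv x y) ((hB F κ).2.1 d x y hy)
    intro y' hy'
    refine h y' ?_
    have : m + (d + 1) = m + 1 + d := by ring
    rw [← this]
    exact hy'

theorem iter_affine (a b : ℝ) (f : (Finset κ → F) → ℝ) :
    ∀ (m : ℕ) (y : Finset κ → F),
      (A0 F κ)^[m] (fun y => a + b * f y) y = a + b * (A0 F κ)^[m] f y := by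
  intro m
  induction m with
  | zero => intro y; rfl
  | succ m ih =>
    intro y
    rw [Function.iterate_succ_apply', Function.iterate_succ_apply', A0_apply, A0_apply]
    have h1 : (∑ x : κ → F, (A0 F κ)^[m] (fun y => a + b * f y) (mulv x y)) =
        (Fintype.card F : ℝ) ^ (Fintype.card κ) * a +
          b * ∑ x : κ → F, (A0 F κ)^[m] f (mulv x y) := by
      rw [Finset.sum_congr rfl fun x _ => ih (mulv x y), Finset.sum_add_distrib,
        Finset.sum_const, Finset.mul_sum, Finset.card_univ, Fintype.card_fun, nsmul_eq_mul]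
      push_cast
      rfl
    rw [h1]
    have hq : (Fintype.card F : ℝ) ^ (Fintype.card κ) ≠ 0 := pow_ne_zero _ q_pos.ne'
    field_simp

end gen

section fin
variable {F : Type} [Field F] [Fintype F]

omit [Fintype F] in
theorem mulv_univ {n : ℕ} (x : Fin (n + 1) → F) (y : Finset (Fin (n + 1)) → F) :
    mulv x y univ = ∑ j, x j * y (univ.erase j) := rfl

/-- number of zeros of a non-zero linear functional -/
theorem card_ker {n : ℕ} (v : Fin (n + 1) → F) (hv : v ≠ 0) :
    Nat.card {x : Fin (n + 1) → F // ∑ j, x j * v j = 0} = Fintype.card F ^ n := by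
  classical
  let L : (Fin (n + 1) → F) →ₗ[F] F :=
    { toFun := fun x => ∑ j, x j * v j
      map_add' := by
        intro x y
        simp only [Pi.add_apply, add_mul, Finset.sum_add_distrib]
      map_smul' := by
        intro c x
        simp only [Pi.smul_apply, smul_eq_mul, RingHom.id_apply, Finset.mul_sum, mul_assoc] }
  have hL : L ≠ 0 := by
    intro h0
    apply hv
    funext j
    have h1 : L (Pi.single j 1) = 0 := by rw [h0]; rfl
    have h2 : L (Pi.single j 1) = v j := by
      show ∑ i, (Pi.single j (1 : F) : Fin (n + 1) → F) i * v i = v j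
      rw [Finset.sum_eq_single j]
      · simp
      · intro b _ hb
        simp [Pi.single_eq_of_ne hb]
      · intro h; exact absurd (Finset.mem_univ j) h
    rw [h2] at h1
    exact h1
  have hs : Function.Surjective L := LinearMap.surjective hL
  have hr : Module.finrank F (LinearMap.range L) = 1 := by
    rw [LinearMap.range_eq_top.2 hs, finrank_top]
    exact Module.finrank_self F
  have hk : Module.finrank F (LinearMap.ker L) = n := by
    have := LinearMap.finrank_range_add_finrank_ker L
    rw [hr, Module.finrank_fin_fun] at this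
    omega
  have hc : Nat.card (LinearMap.ker L) = Fintype.card F ^ n := by
    have : Fintype (LinearMap.ker L) := Fintype.ofFinite _
    rw [Nat.card_eq_fintype_card, Module.card_eq_pow_finrank (K := F), hk]
  rw [← hc]
  exact Nat.card_congr (Equiv.subtypeEquivRight fun x => (LinearMap.mem_ker (f := L)).symm)

theorem A0_z1 {n : ℕ} (y : Finset (Fin (n + 1)) → F) (hy : Hom n y) :
    A0 F (Fin (n + 1)) (z1 F (Fin (n + 1))) y = 1 / q F + (1 - 1 / q F) * zf y := by
  classical
  have hq : (0 : ℝ) < Fintype.card F := q_pos
  have h0 : A0 F (Fin (n + 1)) (z1 F (Fin (n + 1))) y =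
      (Nat.card {x : Fin (n + 1) → F // ∑ j, x j * y (univ.erase j) = 0} : ℝ) /
        (Fintype.card F : ℝ) ^ (n + 1) := by
    rw [A0_apply, Fintype.card_fin]
    congr 1
    have : ∀ x : Fin (n + 1) → F, z1 F (Fin (n + 1)) (mulv x y) =
        if ∑ j, x j * y (univ.erase j) = 0 then (1 : ℝ) else 0 := by
      intro x
      show (@ite ℝ (mulv x y univ = 0) _ 1 0) = _
      rw [mulv_univ]
    rw [Finset.sum_congr rfl fun x _ => this x, Finset.sum_boole, Nat.card_eq_fintype_card,
      Fintype.card_subtype]
  rw [h0]
  by_cases hy0 : y = 0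
  · have hz : zf y = 1 := by simp [zf, hy0]
    rw [hz]
    have h1 : Nat.card {x : Fin (n + 1) → F // ∑ j, x j * y (univ.erase j) = 0} =
        Fintype.card F ^ (n + 1) := by
      rw [Nat.card_eq_fintype_card, Fintype.card_subtype]
      have : (Finset.univ.filter fun x : Fin (n + 1) → F => ∑ j, x j * y (univ.erase j) = 0) =
          Finset.univ := by
        apply Finset.filter_true_of_mem
        intro x _
        simp [hy0]
      rw [this, Finset.card_univ, Fintype.card_fun, Fintype.card_fin]
    rw [h1]
    push_cast
    rw [div_self (pow_ne_zero _ hq.ne')]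
    ring
  · have hz : zf y = 0 := by simp [zf, hy0]
    rw [hz]
    have hv : (fun j : Fin (n + 1) => y (univ.erase j)) ≠ 0 := by
      intro h
      apply hy0
      funext S
      by_contra hS
      have hS' : y S ≠ 0 := hS
      have hc := hy S hS'
      have hcc : (Sᶜ : Finset (Fin (n + 1))).card = 1 := by
        rw [Finset.card_compl, hc, Fintype.card_fin]
        omega
      obtain ⟨j, hj⟩ := Finset.card_eq_one.1 hcc
      have hSj : S = univ.erase j := by
        rw [← compl_compl S, hj]
        ext i
        simp
      apply hS'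
      rw [hSj]
      exact congrFun h j
    rw [card_ker _ hv]
    push_cast
    rw [q]
    field_simp
    ring

end fin

theorem t_LINK (hB : S_BASE) (hE : S_EXP) (hP : S_PER) : S_LINK := by
  classical
  intro F _ _ n
  have hq : (0 : ℝ) < Fintype.card F := q_pos
  have h1 : (A0 F (Fin (n + 1)))^[n + 1] (z1 F (Fin (n + 1))) (one F (Fin (n + 1))) =
      (Nat.card {A : Matrix (Fin (n + 1)) (Fin (n + 1)) F // A.permanent = 0} : ℝ) /
      (q F) ^ ((n + 1) * (n + 1)) := by
    rw [hE F (Fin (n + 1)) (n + 1), Fintype.card_fin, ← pow_mul]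
    congr 1
    have : ∀ C : Fin (n + 1) → Fin (n + 1) → F,
        z1 F (Fin (n + 1)) (prodv (n + 1) C (one F (Fin (n + 1)))) =
        if (Matrix.of C).permanent = 0 then (1 : ℝ) else 0 := by
      intro C
      simp only [z1, hP F (n + 1) C]
    rw [Finset.sum_congr rfl fun x _ => this x, Finset.sum_boole]
    norm_cast
    rw [Nat.card_eq_fintype_card, Fintype.card_subtype]
    exact rfl
  have h2 : (A0 F (Fin (n + 1)))^[n + 1] (z1 F (Fin (n + 1))) (one F (Fin (n + 1))) =
      1 / q F + (1 - 1 / q F) * p F n (n + 1) := by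
    rw [Function.iterate_succ_apply]
    have h3 := iter_congr (F := F) (κ := Fin (n + 1)) hB
      (A0 F (Fin (n + 1)) (z1 F (Fin (n + 1)))) (fun y => 1 / q F + (1 - 1 / q F) * zf y)
      n 0 (by
        intro y hy
        exact A0_z1 y hy) (one F (Fin (n + 1))) (hB F (Fin (n + 1))).2.2.1
    rw [h3, iter_affine]
    rfl
  rw [← h1, h2]

end Run7.h108.PM
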